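import Mathlib

/-!
# Convexly independent subsets of `A + A`: the lower bound `2 n - 1 - ⌊log₂ n⌋`

For every `n ≥ 1` there are a convexly independent set `A` of `n` points of the plane and a
convexly independent subset of `A + A` with `2 n - 1 - ⌊log₂ n⌋` points.
-/

set_option autoImplicit false

open Finset

namespace Pool.Agent.Results.MP_3fce03_co.TwoNMinusLog

/-- The plane. -/
abbrev Plane := ℝ × ℝ

/-- `X` is convexly independent: no `x ∈ X` lies in the convex hull of `X \ {x}`. -/
def ConvexlyIndependent (X : Finset Plane) : Prop :=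
  ∀ x ∈ X, x ∉ convexHull ℝ ((X : Set Plane) \ {x})

/-- The set of sizes `|X|` of convexly independent `X ⊆ A + A`, `A` convexly independent with
`n` points. -/
def sizes (n : ℕ) : Set ℕ :=
  {m | ∃ A X : Finset Plane, A.card = n ∧ ConvexlyIndependent A ∧ ConvexlyIndependent X ∧
    (∀ x ∈ X, ∃ a ∈ A, ∃ b ∈ A, x = a + b) ∧ X.card = m}

/-- The quantity of the problem. -/
noncomputable def g (n : ℕ) : ℕ := sSup (sizes n)

/-! ### Convex chains -/

/-- `q 0, …, q (N - 1)` is a strictly convex chain with slopes `τ 0 < τ 1 < …` above `β`. -/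
structure Chain (N : ℕ) (q : ℕ → Plane) (τ : ℕ → ℝ) (β : ℝ) : Prop where
  x : ∀ j, j + 1 < N → (q j).1 < (q (j + 1)).1
  y : ∀ j, j + 1 < N → (q (j + 1)).2 - (q j).2 = τ j * ((q (j + 1)).1 - (q j).1)
  mono : ∀ j, j + 2 < N → τ j < τ (j + 1)
  low : ∀ j, j + 1 < N → β < τ j

section chain

variable {N : ℕ} {q : ℕ → Plane} {τ : ℕ → ℝ} {β : ℝ}

lemma Chain.slope_mono (h : Chain N q τ β) {i j : ℕ} (hij : i ≤ j) (hj : j + 1 < N) :
    τ i ≤ τ j := by
  induction j, hij using Nat.le_induction with
  | base => exact le_rfl
  | succ j hij ih => exact (ih (by omega)).trans (h.mono j (by omega)).le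

lemma Chain.global (h : Chain N q τ β) {i j : ℕ} (hij : i < j) (hj : j < N) :
    (q i).1 < (q j).1 ∧ τ i * ((q j).1 - (q i).1) ≤ (q j).2 - (q i).2 ∧
      (q j).2 - (q i).2 ≤ τ (j - 1) * ((q j).1 - (q i).1) := by
  induction j, hij using Nat.le_induction with
  | base =>
    have h1 := h.x i hj
    have h2 := h.y i hj
    simp only [Nat.succ_eq_add_one, Nat.add_sub_cancel] at *
    exact ⟨h1, h2.ge, h2.le⟩
  | succ j hij ih =>
    obtain ⟨i1, i2, i3⟩ := ih (by omega)
    have h1 := h.x j hj
    have h2 := h.y j hj
    have h3 : τ i ≤ τ j := h.slope_mono (by omega) hj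
    have h4 : τ (j - 1) ≤ τ j := h.slope_mono (by omega) hj
    rw [Nat.add_sub_cancel]
    refine ⟨i1.trans h1, ?_, ?_⟩
    · have h5 : τ i * ((q (j + 1)).1 - (q j).1) ≤ τ j * ((q (j + 1)).1 - (q j).1) :=
        mul_le_mul_of_nonneg_right h3 (by linarith)
      linarith
    · have h5 : τ (j - 1) * ((q j).1 - (q i).1) ≤ τ j * ((q j).1 - (q i).1) :=
        mul_le_mul_of_nonneg_right h4 (by linarith)
      linarith

lemma Chain.exposed (h : Chain N q τ β) {j : ℕ} (hj : j < N) :
    ∃ t : ℝ, ∀ i < N, i ≠ j → (q j).2 - t * (q j).1 < (q i).2 - t * (q i).1 := by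
  obtain ⟨t, ht1, ht2⟩ : ∃ t : ℝ, (0 < j → τ (j - 1) < t) ∧ (j + 1 < N → t < τ j) := by
    by_cases h0 : 0 < j
    · by_cases h1 : j + 1 < N
      · have := h.mono (j - 1) (by omega)
        rw [show j - 1 + 1 = j by omega] at this
        exact ⟨(τ (j - 1) + τ j) / 2, fun _ => by linarith, fun _ => by linarith⟩
      · exact ⟨τ (j - 1) + 1, fun _ => by linarith, fun h' => absurd h' h1⟩
    · exact ⟨τ j - 1, fun h' => absurd h' h0, fun _ => by linarith⟩
  refine ⟨t, fun i hi hij => ?_⟩
  rcases lt_or_gt_of_ne hij with hlt | hlt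
  · obtain ⟨g1, -, g3⟩ := h.global hlt hj
    have := ht1 (by omega)
    have : τ (j - 1) * ((q j).1 - (q i).1) < t * ((q j).1 - (q i).1) :=
      mul_lt_mul_of_pos_right this (by linarith)
    linarith
  · obtain ⟨g1, g2, -⟩ := h.global hlt hi
    have := ht2 (by omega)
    have : t * ((q i).1 - (q j).1) < τ j * ((q i).1 - (q j).1) :=
      mul_lt_mul_of_pos_right this (by linarith)
    linarith

lemma Chain.injOn (h : Chain N q τ β) : Set.InjOn q (Finset.range N : Set ℕ) := by
  intro i hi j hj hij
  simp only [Finset.coe_range, Set.mem_Iio] at hi hj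
  by_contra hne
  rcases lt_or_gt_of_ne hne with hlt | hlt
  · have := (h.global hlt hj).1
    rw [hij] at this
    exact lt_irrefl _ this
  · have := (h.global hlt hi).1
    rw [hij] at this
    exact lt_irrefl _ this

lemma Chain.card (h : Chain N q τ β) : ((Finset.range N).image q).card = N := by
  rw [Finset.card_image_of_injOn h.injOn, Finset.card_range]

lemma Chain.convexlyIndependent (h : Chain N q τ β) :
    ConvexlyIndependent ((Finset.range N).image q) := by
  intro x hx hmem
  rw [Finset.mem_image] at hx
  obtain ⟨j, hj, rfl⟩ := hx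
  rw [Finset.mem_range] at hj
  obtain ⟨t, ht⟩ := h.exposed hj
  have hconv : Convex ℝ {z : Plane | (q j).2 - t * (q j).1 < z.2 - t * z.1} := by
    intro z hz w hw a b ha hb hab
    simp only [Set.mem_ofPred_eq, Prod.snd_add, Prod.smul_snd, smul_eq_mul, Prod.fst_add,
      Prod.smul_fst] at hz hw ⊢
    have h1 : a * z.2 + b * w.2 - t * (a * z.1 + b * w.1) =
        a * (z.2 - t * z.1) + b * (w.2 - t * w.1) := by ring
    rw [h1]
    have h2 : (q j).2 - t * (q j).1 =
        a * ((q j).2 - t * (q j).1) + b * ((q j).2 - t * (q j).1) := by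
      rw [← add_mul, hab, one_mul]
    rw [h2]
    rcases ha.eq_or_lt with ha' | ha'
    · rw [← ha'] at hab ⊢
      have hb1 : b = 1 := by linarith
      rw [hb1]
      linarith
    · have h3 : a * ((q j).2 - t * (q j).1) < a * (z.2 - t * z.1) :=
        mul_lt_mul_of_pos_left hz ha'
      have h4 : b * ((q j).2 - t * (q j).1) ≤ b * (w.2 - t * w.1) :=
        mul_le_mul_of_nonneg_left hw.le hb
      linarith
  have hsub : ((((Finset.range N).image q : Finset Plane) : Set Plane) \ {q j}) ⊆
      {z : Plane | (q j).2 - t * (q j).1 < z.2 - t * z.1} := by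
    rintro z ⟨hz, hne⟩
    rw [Finset.mem_coe, Finset.mem_image] at hz
    obtain ⟨i, hi, rfl⟩ := hz
    rw [Finset.mem_range] at hi
    apply ht i hi
    rintro rfl
    exact hne rfl
  have := convexHull_min hsub hconv hmem
  simp only [Set.mem_ofPred_eq] at this
  exact lt_irrefl _ this

/-- Shearing a chain. -/
lemma Chain.shear (h : Chain N q τ β) (C : ℝ) :
    Chain N (fun j => ((q j).1, (q j).2 + C * (q j).1)) (fun j => τ j + C) (β + C) := by
  refine ⟨h.x, fun j hj => ?_, fun j hj => ?_, fun j hj => ?_⟩
  · have := h.y j hj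
    simp only
    linarith
  · have := h.mono j hj
    linarith
  · have := h.low j hj
    linarith

end chain

/-- A chain of `n` points together with a chain of `N` sums. -/
def Conf (β : ℝ) (n N : ℕ) : Prop :=
  ∃ (a q : ℕ → Plane) (σ τ : ℕ → ℝ), Chain n a σ β ∧ Chain N q τ β ∧ q 0 = a 0 + a 0 ∧
    ∀ j < N, ∃ i < n, ∃ i' < n, q j = a i + a i'

lemma Conf.shear {β : ℝ} {n N : ℕ} (h : Conf β n N) (C : ℝ) : Conf (β + C) n N := by
  obtain ⟨a, q, σ, τ, ha, hq, h0, hmem⟩ := h
  refine ⟨_, _, _, _, ha.shear C, hq.shear C, ?_, ?_⟩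
  · simp only [h0, Prod.fst_add, Prod.snd_add, Prod.mk_add_mk, Prod.mk.injEq, true_and]
    ring
  · intro j hj
    obtain ⟨i, hi, i', hi', h⟩ := hmem j hj
    refine ⟨i, hi, i', hi', ?_⟩
    simp only [h, Prod.fst_add, Prod.snd_add, Prod.mk_add_mk, Prod.mk.injEq, true_and]
    ring

/-- Adding `p + 1` points in front of a configuration, `1 ≤ p ≤ k`. -/
lemma step_pos {k N p : ℕ} (hp : 1 ≤ p) (hpk : p ≤ k) (h : Conf 1 k N) :
    Conf (-2) (k + 1 + p) (N + 2 * p + 1) := by
  obtain ⟨b, q, σb, τ, hb, hq, h0, hmem⟩ := h
  -- extents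
  obtain ⟨X, Y, hX, hY, hXY, hX0⟩ : ∃ X Y : ℝ, X = (b (p - 1)).1 - (b 0).1 ∧
      Y = (b (p - 1)).2 - (b 0).2 ∧ 0 ≤ Y ∧ 0 ≤ X := by
    refine ⟨_, _, rfl, rfl, ?_, ?_⟩
    · rcases Nat.eq_zero_or_pos (p - 1) with h1 | h1
      · rw [h1]; simp
      · obtain ⟨g1, g2, -⟩ := hb.global h1 (by omega)
        have := hb.low 0 (by omega)
        have h2 : 0 ≤ σb 0 * ((b (p - 1)).1 - (b 0).1) := mul_nonneg (by linarith) (by linarith)
        linarith
    · rcases Nat.eq_zero_or_pos (p - 1) with h1 | h1
      · rw [h1]; simp
      · have := (hb.global h1 (by omega)).1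
        linarith
  -- the differences
  set c : ℕ → Plane := fun i => if i = 0 then (X + Y + 2, Y + 1) else b i - b (i - 1) with hc
  have hc1 : ∀ i < p, 0 < (c i).1 := by
    intro i hi
    simp only [hc]
    split_ifs with h1
    · simp only; linarith
    · have := hb.x (i - 1) (by omega)
      rw [show i - 1 + 1 = i by omega] at this
      simp only [Prod.fst_sub]
      linarith
  have hc2 : ∀ i < p, 0 < (c i).2 := by
    intro i hi
    simp only [hc]
    split_ifs with h1
    · simp only; linarith
    · have h2 := hb.x (i - 1) (by omega)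
      have h3 := hb.y (i - 1) (by omega)
      have h4 := hb.low (i - 1) (by omega)
      rw [show i - 1 + 1 = i by omega] at h2 h3
      simp only [Prod.snd_sub]
      rw [h3]
      exact mul_pos (by linarith) (by linarith)
  set s : ℕ → ℝ := fun i => 1 / ((i : ℝ) + 1) with hs
  have hs0 : ∀ i, 0 < s i := by intro i; simp only [hs]; positivity
  have hsanti : ∀ i j, i < j → s j < s i := by
    intro i j hij
    simp only [hs]
    apply one_div_lt_one_div_of_lt (by positivity)
    have : (i : ℝ) < j := by exact_mod_cast hij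
    linarith
  have hs1 : ∀ i, s i ≤ 1 := by
    intro i
    simp only [hs]
    rw [div_le_one (by positivity)]
    have : (0 : ℝ) ≤ i := by positivity
    linarith
  set gg : ℕ → ℝ := fun i => ((c i).2 + s (p + i) * (c i).1) / (s i - s (p + i)) with hgg
  have hdiff : ∀ i, 0 < s i - s (p + i) := by
    intro i
    have := hsanti i (p + i) (by omega)
    linarith
  have hgpos : ∀ i < p, 0 < gg i := by
    intro i hi
    simp only [hgg]
    apply div_pos _ (hdiff i)
    have h1 := hc1 i hi
    have h2 := hc2 i hi
    have h3 := hs0 (p + i)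
    positivity
  have hgeq : ∀ i, gg i * (s i - s (p + i)) = (c i).2 + s (p + i) * (c i).1 := by
    intro i
    simp only [hgg]
    exact div_mul_cancel₀ _ (hdiff i).ne'
  -- the new first points
  set S : ℕ → Plane := fun i => (∑ l ∈ Finset.range i, gg l, ∑ l ∈ Finset.range i, -(s l * gg l))
    with hS
  have hSsucc1 : ∀ i, (S (i + 1)).1 = (S i).1 + gg i := by
    intro i; simp only [hS]; rw [Finset.sum_range_succ]
  have hSsucc2 : ∀ i, (S (i + 1)).2 = (S i).2 - s i * gg i := by
    intro i; simp only [hS]; rw [Finset.sum_range_succ]; ring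
  set P : ℕ → Plane := fun i =>
    ((b 0).1 - (X + Y + 2) - (S p).1 + (S i).1, (b 0).2 - (Y + 1) - (S p).2 + (S i).2) with hP
  have hPx : ∀ i, (P (i + 1)).1 - (P i).1 = gg i := by
    intro i; simp only [hP]; rw [hSsucc1]; ring
  have hPy : ∀ i, (P (i + 1)).2 - (P i).2 = -(s i * gg i) := by
    intro i; simp only [hP]; rw [hSsucc2]; ring
  have hPp1 : (P p).1 = (b 0).1 - (X + Y + 2) := by simp only [hP]; ring
  have hPp2 : (P p).2 = (b 0).2 - (Y + 1) := by simp only [hP]; ring
  -- the new sequences
  set a' : ℕ → Plane := fun i => if i ≤ p then P i else b (i - p - 1) with ha'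
  set σ' : ℕ → ℝ := fun i => if i < p then -s i else if i = p then (Y + 1) / (X + Y + 2)
    else σb (i - p - 1) with hσ'
  set q' : ℕ → Plane := fun j => if j ≤ p then P 0 + P j else
    if j ≤ 2 * p then P (j - p) + b (j - p - 1) else q (j - 2 * p - 1) with hq'
  set τ' : ℕ → ℝ := fun j => if j < 2 * p then -s j else if j = 2 * p then 1 / (Y + 2)
    else τ (j - 2 * p - 1) with hτ'
  refine ⟨a', q', σ', τ', ⟨?_, ?_, ?_, ?_⟩, ⟨?_, ?_, ?_, ?_⟩, ?_, ?_⟩
  · -- a' x
    intro i hi
    simp only [ha']
    rcases lt_trichotomy i p with h1 | h1 | h1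
    · rw [if_pos h1.le, if_pos (by omega)]
      have := hPx i
      have := hgpos i h1
      linarith
    · subst h1
      rw [if_pos le_rfl, if_neg (by omega), show i + 1 - i - 1 = 0 by omega, hPp1]
      linarith
    · rw [if_neg (by omega), if_neg (by omega)]
      have := hb.x (i - p - 1) (by omega)
      rwa [show i - p - 1 + 1 = i + 1 - p - 1 by omega] at this
  · -- a' y
    intro i hi
    simp only [ha', hσ']
    rcases lt_trichotomy i p with h1 | h1 | h1
    · rw [if_pos h1.le, if_pos (by omega), if_pos h1]
      rw [hPx, hPy]; ring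
    · subst h1
      rw [if_pos le_rfl, if_neg (by omega), show i + 1 - i - 1 = 0 by omega, if_neg (by omega),
        if_pos rfl, hPp1, hPp2]
      have : X + Y + 2 ≠ 0 := by linarith
      field_simp
      ring
    · rw [if_neg (by omega), if_neg (by omega), if_neg (by omega), if_neg (by omega)]
      have := hb.y (i - p - 1) (by omega)
      rwa [show i - p - 1 + 1 = i + 1 - p - 1 by omega] at this
  · -- a' mono
    intro i hi
    simp only [hσ']
    have hpos : 0 < (Y + 1) / (X + Y + 2) := by
      apply div_pos <;> linarith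
    rcases lt_trichotomy i p with h1 | h1 | h1
    · rw [if_pos h1]
      by_cases h2 : i + 1 < p
      · rw [if_pos h2]
        have := hsanti i (i + 1) (by omega)
        linarith
      · rw [if_neg h2, if_pos (by omega)]
        have := hs0 i
        linarith
    · subst h1
      rw [if_neg (by omega), if_pos rfl, if_neg (by omega), if_neg (by omega),
        show i + 1 - i - 1 = 0 by omega]
      have h3 := hb.low 0 (by omega)
      have h4 : (Y + 1) / (X + Y + 2) < 1 := by
        rw [div_lt_one (by linarith)]; linarith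
      linarith
    · rw [if_neg (by omega), if_neg (by omega), if_neg (by omega), if_neg (by omega)]
      have := hb.mono (i - p - 1) (by omega)
      rwa [show i - p - 1 + 1 = i + 1 - p - 1 by omega] at this
  · -- a' low
    intro i hi
    simp only [hσ']
    split_ifs with h1 h2
    · have := hs1 i; linarith
    · have : 0 < (Y + 1) / (X + Y + 2) := by apply div_pos <;> linarith
      linarith
    · have := hb.low (i - p - 1) (by omega); linarith
  · -- q' x
    intro j hj
    simp only [hq']
    by_cases h1 : j + 1 ≤ p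
    · rw [if_pos (by omega), if_pos h1]
      simp only [Prod.fst_add]
      have := hPx j
      have := hgpos j (by omega)
      linarith
    · by_cases h2 : j = p
      · subst h2
        rw [if_pos le_rfl, if_neg (by omega), if_pos (by omega), show j + 1 - j = 1 by omega,
          Nat.sub_self]
        simp only [Prod.fst_add]
        have h3 := hPx 0
        have h4 := hgpos 0 (by omega)
        rw [zero_add] at h3
        linarith
      · by_cases h3 : j < 2 * p
        · rw [if_neg (by omega), if_pos (by omega), if_neg (by omega), if_pos (by omega)]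
          simp only [Prod.fst_add]
          have h4 := hPx (j - p)
          have h5 := hgpos (j - p) (by omega)
          have h6 := hb.x (j - p - 1) (by omega)
          rw [show j - p + 1 = j + 1 - p by omega] at h4
          rw [show j - p - 1 + 1 = j + 1 - p - 1 by omega] at h6
          linarith
        · by_cases h4 : j = 2 * p
          · subst h4
            rw [if_neg (by omega), if_pos le_rfl, if_neg (by omega), if_neg (by omega),
              show 2 * p - p = p by omega, show 2 * p + 1 - 2 * p - 1 = 0 by omega, h0]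
            simp only [Prod.fst_add]
            rw [hPp1]
            linarith
          · rw [if_neg (by omega), if_neg (by omega), if_neg (by omega), if_neg (by omega)]
            have := hq.x (j - 2 * p - 1) (by omega)
            rwa [show j - 2 * p - 1 + 1 = j + 1 - 2 * p - 1 by omega] at this
  · -- q' y
    intro j hj
    simp only [hq', hτ']
    by_cases h1 : j + 1 ≤ p
    · rw [if_pos h1, if_pos (show j ≤ p by omega), if_pos (show j < 2 * p by omega)]
      simp only [Prod.fst_add, Prod.snd_add]
      have h2 := hPx j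
      have h3 := hPy j
      have h4 : (P 0).1 + (P (j + 1)).1 - ((P 0).1 + (P j).1) = gg j := by linarith
      rw [h4]
      linarith
    · by_cases h2 : j = p
      · subst h2
        rw [if_pos le_rfl, if_neg (by omega), if_pos (by omega), show j + 1 - j = 1 by omega,
          Nat.sub_self, if_pos (by omega)]
        simp only [Prod.fst_add, Prod.snd_add]
        have h3 := hPx 0
        have h3' := hPy 0
        rw [zero_add] at h3 h3'
        have h5 := hgeq 0
        rw [add_zero] at h5
        have h6 : (c 0).1 = X + Y + 2 := by simp [hc]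
        have h7 : (c 0).2 = Y + 1 := by simp [hc]
        rw [h6, h7] at h5
        have h8 : (P 1).1 + (b 0).1 - ((P 0).1 + (P j).1) = gg 0 + (X + Y + 2) := by
          rw [hPp1]; linarith
        have h9 : (P 1).2 + (b 0).2 - ((P 0).2 + (P j).2) = -(s 0 * gg 0) + (Y + 1) := by
          rw [hPp2]; linarith
        rw [h8, h9]
        linarith
      · by_cases h3 : j < 2 * p
        · rw [if_neg (by omega), if_pos (by omega), if_neg (by omega), if_pos (by omega),
            if_pos h3]
          simp only [Prod.fst_add, Prod.snd_add]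
          have h4 := hPx (j - p)
          have h4' := hPy (j - p)
          have h5 := hgeq (j - p)
          rw [show p + (j - p) = j by omega] at h5
          have h6 : (c (j - p)).1 = (b (j - p)).1 - (b (j - p - 1)).1 := by
            simp only [hc]; rw [if_neg (by omega)]; rfl
          have h7 : (c (j - p)).2 = (b (j - p)).2 - (b (j - p - 1)).2 := by
            simp only [hc]; rw [if_neg (by omega)]; rfl
          rw [h6, h7] at h5
          rw [show j + 1 - p = j - p + 1 by omega, Nat.add_sub_cancel]
          have h8 : (P (j - p + 1)).1 + (b (j - p)).1 - ((P (j - p)).1 + (b (j - p - 1)).1) =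
              gg (j - p) + ((b (j - p)).1 - (b (j - p - 1)).1) := by linarith
          have h9 : (P (j - p + 1)).2 + (b (j - p)).2 - ((P (j - p)).2 + (b (j - p - 1)).2) =
              -(s (j - p) * gg (j - p)) + ((b (j - p)).2 - (b (j - p - 1)).2) := by linarith
          rw [h8, h9]
          linarith
        · by_cases h4 : j = 2 * p
          · subst h4
            rw [if_neg (by omega), if_pos le_rfl, if_neg (by omega), if_neg (by omega),
              show 2 * p - p = p by omega, show 2 * p + 1 - 2 * p - 1 = 0 by omega, h0,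
              if_neg (by omega), if_pos rfl]
            simp only [Prod.fst_add, Prod.snd_add]
            rw [hPp1, hPp2]
            have h8 : (b 0).1 + (b 0).1 - ((b 0).1 - (X + Y + 2) + (b (p - 1)).1) = Y + 2 := by
              linarith
            have h9 : (b 0).2 + (b 0).2 - ((b 0).2 - (Y + 1) + (b (p - 1)).2) = 1 := by
              linarith
            rw [h8, h9]
            have : Y + 2 ≠ 0 := by linarith
            field_simp
          · rw [if_neg (by omega), if_neg (by omega), if_neg (by omega), if_neg (by omega),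
              if_neg (by omega), if_neg (by omega)]
            have := hq.y (j - 2 * p - 1) (by omega)
            rwa [show j - 2 * p - 1 + 1 = j + 1 - 2 * p - 1 by omega] at this
  · -- q' mono
    intro j hj
    simp only [hτ']
    have hpos : 0 < 1 / (Y + 2) := by apply one_div_pos.mpr; linarith
    rcases lt_trichotomy j (2 * p) with h1 | h1 | h1
    · rw [if_pos h1]
      by_cases h2 : j + 1 < 2 * p
      · rw [if_pos h2]
        have := hsanti j (j + 1) (by omega)
        linarith
      · rw [if_neg h2, if_pos (by omega)]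
        have := hs0 j
        linarith
    · subst h1
      rw [if_neg (by omega), if_pos rfl, if_neg (by omega), if_neg (by omega),
        show 2 * p + 1 - 2 * p - 1 = 0 by omega]
      have h3 := hq.low 0 (by omega)
      have h4 : 1 / (Y + 2) < 1 := by
        rw [div_lt_one (by linarith)]; linarith
      linarith
    · rw [if_neg (by omega), if_neg (by omega), if_neg (by omega), if_neg (by omega)]
      have := hq.mono (j - 2 * p - 1) (by omega)
      rwa [show j - 2 * p - 1 + 1 = j + 1 - 2 * p - 1 by omega] at this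
  · -- q' low
    intro j hj
    simp only [hτ']
    split_ifs with h1 h2
    · have := hs1 j; linarith
    · have : 0 < 1 / (Y + 2) := by apply one_div_pos.mpr; linarith
      linarith
    · have := hq.low (j - 2 * p - 1) (by omega); linarith
  · -- q' 0
    simp only [hq', ha']
    rw [if_pos (Nat.zero_le _), if_pos (Nat.zero_le _)]
  · -- membership
    intro j hj
    simp only [hq']
    by_cases h1 : j ≤ p
    · rw [if_pos h1]
      refine ⟨0, by omega, j, by omega, ?_⟩
      simp only [ha']
      rw [if_pos (Nat.zero_le _), if_pos h1]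
    · by_cases h2 : j ≤ 2 * p
      · rw [if_neg h1, if_pos h2]
        refine ⟨j - p, by omega, j, by omega, ?_⟩
        simp only [ha']
        rw [if_pos (by omega), if_neg h1]
      · rw [if_neg h1, if_neg h2]
        obtain ⟨i, hi, i', hi', h⟩ := hmem (j - 2 * p - 1) (by omega)
        refine ⟨p + 1 + i, by omega, p + 1 + i', by omega, ?_⟩
        simp only [ha']
        rw [if_neg (by omega), if_neg (by omega), h, show p + 1 + i - p - 1 = i by omega,
          show p + 1 + i' - p - 1 = i' by omega]

/-- Adding one point in front of a configuration. -/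
lemma step_zero {k N : ℕ} (h : Conf 1 k N) :
    Conf (-2) (k + 1) (N + 1) := by
  obtain ⟨b, q, σb, τ, hb, hq, h0, hmem⟩ := h
  refine ⟨fun i => if i = 0 then ((b 0).1 - 1, (b 0).2) else b (i - 1),
    fun j => if j = 0 then ((b 0).1 - 1, (b 0).2) + ((b 0).1 - 1, (b 0).2) else q (j - 1),
    fun i => if i = 0 then 0 else σb (i - 1), fun j => if j = 0 then 0 else τ (j - 1),
    ⟨?_, ?_, ?_, ?_⟩, ⟨?_, ?_, ?_, ?_⟩, ?_, ?_⟩
  · intro i hi
    rcases Nat.eq_zero_or_pos i with h1 | h1
    · subst h1; simp
    · rw [if_neg (by omega), if_neg (by omega), Nat.add_sub_cancel]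
      have := hb.x (i - 1) (by omega)
      rwa [show i - 1 + 1 = i by omega] at this
  · intro i hi
    rcases Nat.eq_zero_or_pos i with h1 | h1
    · subst h1; simp
    · rw [if_neg (by omega), if_neg (by omega), if_neg (by omega), Nat.add_sub_cancel]
      have := hb.y (i - 1) (by omega)
      rwa [show i - 1 + 1 = i by omega] at this
  · intro i hi
    rcases Nat.eq_zero_or_pos i with h1 | h1
    · subst h1
      have := hb.low 0 (by omega)
      simp
      linarith
    · rw [if_neg (by omega), if_neg (by omega), Nat.add_sub_cancel]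
      have := hb.mono (i - 1) (by omega)
      rwa [show i - 1 + 1 = i by omega] at this
  · intro i hi
    split_ifs with h1
    · norm_num
    · have := hb.low (i - 1) (by omega)
      linarith
  · intro j hj
    rcases Nat.eq_zero_or_pos j with h1 | h1
    · subst h1; simp [h0]; linarith
    · rw [if_neg (by omega), if_neg (by omega), Nat.add_sub_cancel]
      have := hq.x (j - 1) (by omega)
      rwa [show j - 1 + 1 = j by omega] at this
  · intro j hj
    rcases Nat.eq_zero_or_pos j with h1 | h1
    · subst h1; simp [h0]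
    · rw [if_neg (by omega), if_neg (by omega), if_neg (by omega), Nat.add_sub_cancel]
      have := hq.y (j - 1) (by omega)
      rwa [show j - 1 + 1 = j by omega] at this
  · intro j hj
    rcases Nat.eq_zero_or_pos j with h1 | h1
    · subst h1
      have := hq.low 0 (by omega)
      simp
      linarith
    · rw [if_neg (by omega), if_neg (by omega), Nat.add_sub_cancel]
      have := hq.mono (j - 1) (by omega)
      rwa [show j - 1 + 1 = j by omega] at this
  · intro j hj
    split_ifs with h1
    · norm_num
    · have := hq.low (j - 1) (by omega)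
      linarith
  · simp
  · intro j hj
    rcases Nat.eq_zero_or_pos j with h1 | h1
    · subst h1
      exact ⟨0, by omega, 0, by omega, by simp⟩
    · obtain ⟨i, hi, i', hi', h⟩ := hmem (j - 1) (by omega)
      refine ⟨i + 1, by omega, i' + 1, by omega, ?_⟩
      simp only
      rw [if_neg (by omega), if_neg (by omega), if_neg (by omega), h, Nat.add_sub_cancel,
        Nat.add_sub_cancel]

lemma step {k N p : ℕ} (hpk : p ≤ k) (h : Conf 1 k N) :
    Conf 1 (k + 1 + p) (N + 2 * p + 1) := by
  have h' : Conf (-2) (k + 1 + p) (N + 2 * p + 1) := by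
    rcases Nat.eq_zero_or_pos p with h1 | h1
    · subst h1
      exact step_zero h
    · exact step_pos h1 hpk h
  have := h'.shear 3
  norm_num at this
  exact this

lemma conf_one : Conf 1 1 1 := by
  refine ⟨fun _ => (0, 0), fun _ => (0, 0), fun _ => 0, fun _ => 0, ⟨?_, ?_, ?_, ?_⟩,
    ⟨?_, ?_, ?_, ?_⟩, ?_, ?_⟩
  any_goals (intro j hj; omega)
  · simp
  · intro j hj
    exact ⟨0, by omega, 0, by omega, by simp⟩

lemma conf_pow (j : ℕ) : Conf 1 (2 ^ (j + 1) - 1) (2 * (2 ^ (j + 1) - 1) - (j + 1)) := by
  induction j with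
  | zero => exact conf_one
  | succ j ih =>
    have h1 : j + 2 ≤ 2 ^ (j + 1) := by
      have := @Nat.lt_two_pow_self (j + 1)
      omega
    have h2 : 2 ^ (j + 1 + 1) = 2 * 2 ^ (j + 1) := by rw [pow_succ]; ring
    have := step (p := 2 ^ (j + 1) - 1) le_rfl ih
    convert this using 1 <;> omega

lemma conf_all {n : ℕ} (hn : 1 ≤ n) : Conf 1 n (2 * n - 1 - Nat.log 2 n) := by
  have h1 : 2 ^ Nat.log 2 n ≤ n := Nat.pow_log_le_self 2 (by omega)
  have h2 : n < 2 ^ (Nat.log 2 n + 1) := Nat.lt_pow_succ_log_self (by norm_num) n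
  rcases Nat.eq_zero_or_pos (Nat.log 2 n) with h0 | h0
  · rw [h0] at h2 ⊢
    have : n = 1 := by omega
    subst this
    exact conf_one
  · obtain ⟨j, hj⟩ : ∃ j, Nat.log 2 n = j + 1 := ⟨Nat.log 2 n - 1, by omega⟩
    rw [hj] at h1 h2 ⊢
    have h3 : 2 ^ (j + 1 + 1) = 2 * 2 ^ (j + 1) := by rw [pow_succ]; ring
    have h4 : j + 2 ≤ 2 ^ (j + 1) := by
      have := @Nat.lt_two_pow_self (j + 1)
      omega
    have := step (p := n - 2 ^ (j + 1)) (by omega) (conf_pow j)
    convert this using 1 <;> omega

/-- **Main theorem.** For every `n ≥ 3` there are a convexly independent set `A` of `n` points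
of the plane and a convexly independent set `X ⊆ A + A` with `2 n - 1 - ⌊log₂ n⌋` points; hence
the quantity `g n` of the problem is at least `2 n - 1 - ⌊log₂ n⌋`. -/
theorem result (n : ℕ) (hn : 3 ≤ n) :
    (∃ A X : Finset Plane, A.card = n ∧ ConvexlyIndependent A ∧ ConvexlyIndependent X ∧
      (∀ x ∈ X, ∃ a ∈ A, ∃ b ∈ A, x = a + b) ∧ X.card = 2 * n - 1 - Nat.log 2 n) ∧
    BddAbove (sizes n) ∧ 2 * n - 1 - Nat.log 2 n ≤ g n := by
  classical
  have main : ∃ A X : Finset Plane, A.card = n ∧ ConvexlyIndependent A ∧
      ConvexlyIndependent X ∧ (∀ x ∈ X, ∃ a ∈ A, ∃ b ∈ A, x = a + b) ∧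
      X.card = 2 * n - 1 - Nat.log 2 n := by
    obtain ⟨a, q, σ, τ, ha, hq, -, hmem⟩ := conf_all (n := n) (by omega)
    refine ⟨(Finset.range n).image a, (Finset.range _).image q, ha.card, ha.convexlyIndependent,
      hq.convexlyIndependent, ?_, hq.card⟩
    intro x hx
    rw [Finset.mem_image] at hx
    obtain ⟨j, hj, rfl⟩ := hx
    rw [Finset.mem_range] at hj
    obtain ⟨i, hi, i', hi', h⟩ := hmem j hj
    exact ⟨a i, Finset.mem_image_of_mem _ (Finset.mem_range.mpr hi), a i',
      Finset.mem_image_of_mem _ (Finset.mem_range.mpr hi'), h⟩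
  have hbdd : BddAbove (sizes n) := by
    refine ⟨n * n, ?_⟩
    rintro m ⟨A, X, hA, -, -, hX, rfl⟩
    have hsub : X ⊆ (A ×ˢ A).image (fun p => p.1 + p.2) := by
      intro x hx
      obtain ⟨a, ha, b, hb, h⟩ := hX x hx
      rw [Finset.mem_image]
      exact ⟨(a, b), Finset.mem_product.mpr ⟨ha, hb⟩, h.symm⟩
    calc X.card ≤ ((A ×ˢ A).image (fun p => p.1 + p.2)).card := Finset.card_le_card hsub
      _ ≤ (A ×ˢ A).card := Finset.card_image_le
      _ = n * n := by rw [Finset.card_product, hA]
  exact ⟨main, hbdd, le_csSup hbdd main⟩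

end Pool.Agent.Results.MP_3fce03_co.TwoNMinusLog
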